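import Mathlib
import Pool.Agent.H892.KT.Stm

set_option autoImplicit false

/-! # Project KT (helper892): statement JSPAN (helper164) -/

namespace Pool.Agent.H164.KT

open Pool.Agent.H892.KT

/-- strict log-concavity of the binomial coefficients -/
lemma choose_logc (m i : ℕ) (h : i + 1 ≤ m) :
    m.choose i * m.choose (i + 2) < m.choose (i + 1) ^ 2 := by
  obtain ⟨r, rfl⟩ : ∃ r, m = i + 1 + r := ⟨m - (i + 1), by omega⟩
  have h1 := Nat.choose_succ_right_eq (i + 1 + r) i
  have h2 := Nat.choose_succ_right_eq (i + 1 + r) (i + 1)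
  rw [show i + 1 + r - i = r + 1 by omega] at h1
  rw [show i + 1 + r - (i + 1) = r by omega] at h2
  set a := (i + 1 + r).choose i
  set b := (i + 1 + r).choose (i + 1)
  have h2' : (i + 1 + r).choose (i + 2) * (i + 2) = b * r := h2
  set c := (i + 1 + r).choose (i + 2)
  have hb : 0 < b := Nat.choose_pos (by omega)
  have e : (a * c) * ((r + 1) * (i + 2)) = b ^ 2 * ((i + 1) * r) := by
    calc (a * c) * ((r + 1) * (i + 2)) = (a * (r + 1)) * (c * (i + 2)) := by ring
      _ = (b * (i + 1)) * (b * r) := by rw [← h1, h2']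
      _ = b ^ 2 * ((i + 1) * r) := by ring
  have e2 : b ^ 2 * ((i + 1) * r) < b ^ 2 * ((r + 1) * (i + 2)) := by
    apply Nat.mul_lt_mul_of_pos_left _ (by positivity)
    nlinarith
  rw [← e] at e2
  exact lt_of_mul_lt_mul_right e2 (Nat.zero_le _)

theorem t_JSPAN (h1 : S_VDM) : S_JSPAN := by
  intro k S hk hX hY c d
  obtain ⟨m, rfl⟩ : ∃ m, k = m + 1 := ⟨k - 1, by omega⟩
  simp only [Nat.add_sub_cancel] at hX hY
  let al : ℕ → ℂ := fun j => (m.choose j : ℂ) * (-1) ^ j
  let be : ℕ → ℂ := fun j => Nat.casesOn j 0 al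
  let A : ℕ → (ℂ × ℂ → ℂ × ℂ) := fun j y => (y.1 ^ j * y.2 ^ (m + 1 - j), 0)
  let B : ℕ → (ℂ × ℂ → ℂ × ℂ) := fun j y => (0, y.1 ^ j * y.2 ^ (m + 1 - j))
  let X : ℕ → (ℂ × ℂ → ℂ × ℂ) := fun j => al j • A (j + 1) + be j • B j
  let Y : ℕ → (ℂ × ℂ → ℂ × ℂ) := fun j => al j • A j + be j • B (j - 1)
  have hbe : ∀ j, be (j + 1) = al j := fun j => rfl
  have hbe0 : be 0 = 0 := rfl
  have halm : al (m + 1) = 0 := by simp [al, Nat.choose_succ_self]
  -- the binomial expansion
  have bin : ∀ (s : ℂ) (y : ℂ × ℂ), (y.2 - s * y.1) ^ m =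
      ∑ j ∈ Finset.range (m + 1), s ^ j * (al j * (y.1 ^ j * y.2 ^ (m - j))) := by
    intro s y
    rw [sub_eq_neg_add, add_pow]
    apply Finset.sum_congr rfl
    intro j _
    simp only [al]
    rw [neg_pow, mul_pow]
    ring
  have eX : ∀ s : ℂ, (fun y : ℂ × ℂ => (y.1 * (y.2 - s * y.1) ^ m,
      s * (y.1 * (y.2 - s * y.1) ^ m))) = ∑ j ∈ Finset.range (m + 1 + 1), s ^ j • X j := by
    intro s
    funext y
    have p1 : y.1 * (y.2 - s * y.1) ^ m =
        ∑ j ∈ Finset.range (m + 1), s ^ j * (al j * (y.1 ^ (j + 1) * y.2 ^ (m + 1 - (j + 1)))) := by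
      rw [bin, Finset.mul_sum]
      apply Finset.sum_congr rfl
      intro j _
      rw [show m + 1 - (j + 1) = m - j by omega]
      ring
    apply Prod.ext
    · simp only [Finset.sum_apply, Prod.fst_sum, X, A, B, Pi.smul_apply, Pi.add_apply, Prod.smul_fst,
        Prod.fst_add, smul_eq_mul, mul_zero, add_zero]
      rw [Finset.sum_range_succ, halm, p1]
      simp
    · simp only [Finset.sum_apply, Prod.snd_sum, X, A, B, Pi.smul_apply, Pi.add_apply, Prod.smul_snd,
        Prod.snd_add, smul_eq_mul, mul_zero, zero_add]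
      rw [Finset.sum_range_succ', hbe0, p1, Finset.mul_sum]
      simp only [hbe, zero_mul, mul_zero, add_zero]
      apply Finset.sum_congr rfl
      intro j _
      ring
  have eY : ∀ s : ℂ, (fun y : ℂ × ℂ => (y.2 * (y.2 - s * y.1) ^ m,
      s * (y.2 * (y.2 - s * y.1) ^ m))) = ∑ j ∈ Finset.range (m + 1 + 1), s ^ j • Y j := by
    intro s
    funext y
    have p1 : y.2 * (y.2 - s * y.1) ^ m =
        ∑ j ∈ Finset.range (m + 1), s ^ j * (al j * (y.1 ^ j * y.2 ^ (m + 1 - j))) := by
      rw [bin, Finset.mul_sum]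
      apply Finset.sum_congr rfl
      intro j hj
      have hj' := Finset.mem_range.1 hj
      rw [show m + 1 - j = (m - j) + 1 by omega, pow_succ]
      ring
    apply Prod.ext
    · simp only [Finset.sum_apply, Prod.fst_sum, Y, A, B, Pi.smul_apply, Pi.add_apply, Prod.smul_fst,
        Prod.fst_add, smul_eq_mul, mul_zero, add_zero]
      rw [Finset.sum_range_succ, halm, p1]
      simp
    · simp only [Finset.sum_apply, Prod.snd_sum, Y, A, B, Pi.smul_apply, Pi.add_apply, Prod.smul_snd,
        Prod.snd_add, smul_eq_mul, mul_zero, zero_add]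
      rw [Finset.sum_range_succ', hbe0, p1, Finset.mul_sum]
      simp only [hbe, zero_mul, mul_zero, add_zero, Nat.add_sub_cancel]
      apply Finset.sum_congr rfl
      intro j _
      ring
  have mX : ∀ j ≤ m + 1, X j ∈ S := h1 _ S (m + 1) X (fun s => by rw [← eX s]; exact hX s)
  have mY : ∀ j ≤ m + 1, Y j ∈ S := h1 _ S (m + 1) Y (fun s => by rw [← eY s]; exact hY s)
  have det : ∀ j ≤ m, al j * al j - al (j + 1) * be j ≠ 0 := by
    intro j hj
    rcases j with _ | i
    · rw [hbe0]; simp [al]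
    · rw [hbe]
      have hlt := choose_logc m i hj
      have e1 : al (i + 1) * al (i + 1) - al (i + 1 + 1) * al i =
          ((m.choose (i + 1) : ℂ) ^ 2 - (m.choose i : ℂ) * (m.choose (i + 2) : ℂ)) := by
        simp only [al]
        have h2 : ((-1 : ℂ) ^ i) * ((-1 : ℂ) ^ i) = 1 := by
          rw [← mul_pow]; simp
        rw [pow_succ (-1 : ℂ) (i + 1), pow_succ (-1 : ℂ) i]
        linear_combination ((m.choose (i + 1) : ℂ) ^ 2 - (m.choose i : ℂ) * (m.choose (i + 2) : ℂ)) * h2
      rw [e1]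
      intro h0
      have h3 : ((m.choose (i + 1) ^ 2 : ℕ) : ℂ) = ((m.choose i * m.choose (i + 2) : ℕ) : ℂ) := by
        push_cast
        exact sub_eq_zero.1 h0
      have h4 := Nat.cast_injective h3
      omega
  have mA : ∀ j ≤ m, A (j + 1) ∈ S := by
    intro j hj
    have e : A (j + 1) = (al j * al j - al (j + 1) * be j)⁻¹ • (al j • X j - be j • Y (j + 1)) := by
      have e1 : al j • X j - be j • Y (j + 1) = (al j * al j - al (j + 1) * be j) • A (j + 1) := by
        simp only [X, Y, hbe, Nat.add_sub_cancel]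
        module
      rw [e1, smul_smul, inv_mul_cancel₀ (det j hj), one_smul]
    rw [e]
    exact S.smul_mem _ (S.sub_mem (S.smul_mem _ (mX j (by omega))) (S.smul_mem _ (mY _ (by omega))))
  have mB : ∀ j ≤ m, B j ∈ S := by
    intro j hj
    have e : B j = (al j * al j - al (j + 1) * be j)⁻¹ • (al j • Y (j + 1) - al (j + 1) • X j) := by
      have e1 : al j • Y (j + 1) - al (j + 1) • X j = (al j * al j - al (j + 1) * be j) • B j := by
        simp only [X, Y, hbe, Nat.add_sub_cancel]
        module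
      rw [e1, smul_smul, inv_mul_cancel₀ (det j hj), one_smul]
    rw [e]
    exact S.smul_mem _ (S.sub_mem (S.smul_mem _ (mY _ (by omega))) (S.smul_mem _ (mX j (by omega))))
  have mA0 : A 0 ∈ S := by
    have e : Y 0 = A 0 := by
      simp only [Y, hbe0]
      simp [al]
    rw [← e]; exact mY 0 (by omega)
  have mBk : B (m + 1) ∈ S := by
    have h0 : al m ≠ 0 := by simp [al]
    have e : B (m + 1) = (al m)⁻¹ • X (m + 1) := by
      simp only [X, hbe, halm, zero_smul, zero_add]
      rw [smul_smul, inv_mul_cancel₀ h0, one_smul]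
    rw [e]; exact S.smul_mem _ (mX _ le_rfl)
  have mA' : ∀ j ≤ m + 1, A j ∈ S := by
    intro j hj
    rcases j with _ | i
    · exact mA0
    · exact mA i (by omega)
  have mB' : ∀ j ≤ m + 1, B j ∈ S := by
    intro j hj
    rcases Nat.lt_or_ge j (m + 1) with h | h
    · exact mB j (by omega)
    · have : j = m + 1 := by omega
      rw [this]; exact mBk
  have e : hm (m + 1) c d = ∑ j ∈ Finset.range (m + 1 + 1), (c j • A j + d j • B j) := by
    funext y
    apply Prod.ext
    · simp only [hm, hp, Finset.sum_apply, Prod.fst_sum, A, B, Pi.smul_apply, Pi.add_apply,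
        Prod.smul_fst, Prod.fst_add, smul_eq_mul, mul_zero, add_zero, mul_assoc]
    · simp only [hm, hp, Finset.sum_apply, Prod.snd_sum, A, B, Pi.smul_apply, Pi.add_apply,
        Prod.smul_snd, Prod.snd_add, smul_eq_mul, mul_zero, zero_add, mul_assoc]
  rw [e]
  apply S.sum_mem
  intro j hj
  have hj' := Finset.mem_range.1 hj
  exact S.add_mem (S.smul_mem _ (mA' j (by omega))) (S.smul_mem _ (mB' j (by omega)))

end Pool.Agent.H164.KT
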